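import Pool.Agent.Lib.LinSpace.Reg.Main

/-!
# Context-free rewriting with commutative control is deterministic context-sensitive

The definitions of the statement are in `Pool.Agent.Lib.LinSpace.Machine` (machines, `DCS`) and in
`Pool.Agent.Lib.LinSpace.Reg.Grammar` (`ControlledGrammar`, `Step`, `DerivesWithin`,
`languageWithin`).
-/

namespace Pool.Agent.Results.MP_768539_lc.CommutativeControl

open Pool.Agent.Lib.LinSpace

/-- Let `G` be a context-free grammar (erasing rules allowed) whose derivations are controlled by
finitely many states and by conditions which do not depend on the order of the letters of the
sentential form and are deterministic context-sensitive. For every `K` the language of all words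
`w` which `G` derives through sentential forms of length at most `K * |w| + K` is deterministic
context-sensitive. (If no rule is erasing, then with `K = 1` this is the whole language of
`G`.) -/
theorem result (A : Type) [Finite A] (G : ControlledGrammar A) (K : ℕ) :
    G.languageWithin K ∈ DCS A :=
  Reg.languageWithin_mem_DCS G K

end Pool.Agent.Results.MP_768539_lc.CommutativeControl
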