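import Pool.Agent.Lib.LinSpace.Quad.LBA

/-!
Nondeterministic linear bounded automata that rarely move far accept deterministic
context-sensitive languages.
-/

set_option autoImplicit false

namespace Pool.Agent.Results.MP_768539_lc.CrossingCriterion

open Pool.Agent.Lib.LinSpace

/-- Let `M` be a nondeterministic one-tape linear bounded automaton, `φ` a nondecreasing function
with `∑ φ m / m ^ 2 < ∞`, and `C` a constant. Suppose that every accepted word `w` has an accepting
computation such that, with `N = |w| + 2` the number of cells of the tape, every interval of `b`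
cells, `b ^ 2 ≥ C * N`, has in its middle third a boundary between two cells that is crossed by
the head at most `C * N * 2 ^ φ (N / b)` times. Then the language of `M` is deterministic
context-sensitive. -/
theorem result (A : Type) [Finite A] (M : LBA A) (φ : ℕ → ℕ) (hφ : Monotone φ)
    (hsum : Summable fun m : ℕ => (φ m : ℝ) / (m : ℝ) ^ 2) (C : ℕ)
    (hM : ∀ w ∈ M.language, ∃ (n : ℕ) (c : ℕ → M.Cfg),
      M.IsComputation w n c ∧ (c n).state ∈ M.acc ∧
      ∀ x b : ℕ, 0 < b → x + b ≤ w.length + 2 → C * (w.length + 2) ≤ b ^ 2 →
        ∃ p : ℕ, b ≤ 3 * p ∧ 3 * p ≤ 2 * b ∧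
          M.crossings n c (x + p) ≤ C * (w.length + 2) * 2 ^ φ ((w.length + 2) / b)) :
    M.language ∈ DCS A :=
  M.mem_DCS hφ hsum hM

end Pool.Agent.Results.MP_768539_lc.CrossingCriterion
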