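import Pool.Agent.Lib.LinSpace.Ho.Final

/-!
Every language accepted by a nondeterministic higher-order pushdown automaton (Maslov 1974) is
accepted by a deterministic linearly bounded machine: the whole Maslov (OI) hierarchy, whose
second level is the class of the indexed languages, is contained in `DSPACE(n)`.
-/

set_option autoImplicit false

namespace Pool.Agent.Results.MP_768539_lc.HigherOrderDCS

open Pool.Agent.Lib.LinSpace Pool.Agent.Lib.LinSpace.Ho

/-- The language of every nondeterministic pushdown automaton `M` of order `n + 1` is
deterministic context-sensitive. -/
theorem result (A : Type) [Finite A] (n : ℕ) (M : Hopda A n) : M.language ∈ DCS A :=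
  M.language_mem_DCS

end Pool.Agent.Results.MP_768539_lc.HigherOrderDCS
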