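import Pool.Agent.Lib.LinSpace.Var.Main

/-!
Nondeterministic processes on words with linear total variation, whose single steps are decidable
in deterministic linear space, accept only deterministic context-sensitive languages.
-/

set_option autoImplicit false

namespace Pool.Agent.Results.MP_768539_lc.LinearVariation

open Pool.Agent.Lib.LinSpace Pool.Agent.Lib.LinSpace.Var

/-- `Accepts S D k u`: from the word `u` one can reach a word in `D` by steps `v → v'` such that
`v # v'` belongs to `S`, changing altogether `k` letters (inserting, deleting or replacing one
letter counts as one change; reading is free). -/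
inductive Accepts {B : Type} (S : Language (Option B)) (D : Language B) : ℕ → List B → Prop
  | final {u : List B} : u ∈ D → Accepts S D 0 u
  | step {c k : ℕ} {u v : List B} : u.map some ++ none :: v.map some ∈ S → Edits c u v →
      Accepts S D k v → Accepts S D (c + k) u

theorem accepts_iff {B : Type} {S : Language (Option B)} {D : Language B} {k : ℕ} {u : List B} :
    Accepts S D k u ↔
      ∃ e, Pth (fun u v => u.map some ++ none :: v.map some ∈ S) k u e ∧ e ∈ D := by
  constructor
  · intro h
    induction h with
    | final h => exact ⟨_, .refl _, h⟩
    | step h1 h2 _ ih =>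
      obtain ⟨e, h3, h4⟩ := ih
      exact ⟨e, .step h2 h1 h3, h4⟩
  · rintro ⟨e, h1, h2⟩
    induction h1 with
    | refl v => exact .final h2
    | step h3 h4 _ ih => exact .step h4 h3 (ih h2)

/-- If single steps and final words are decidable in deterministic linear space, then so is
acceptance with linearly many changes. -/
theorem result (A B : Type) [Finite A] [Finite B] (ι : A → B) (S : Language (Option B))
    (hS : S ∈ DCS (Option B)) (D : Language B) (hD : D ∈ DCS B) (K : ℕ) :
    ({w | ∃ k ≤ K * w.length + K, Accepts S D k (w.map ι)} : Language A) ∈ DCS A := by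
  classical
  let _ : Enc A := encFinite A
  let _ : Enc B := encFinite B
  rcases isEmpty_or_nonempty B with hB | hB
  · have hA : IsEmpty A := ⟨fun a => hB.false (ι a)⟩
    refine mem_DCS_of_lin (f := fun w : List A =>
      decide (([] : List A) ∈ ({w | ∃ k ≤ K * w.length + K, Accepts S D k (w.map ι)} :
        Language A))) (Lin.const _) _ fun w => ?_
    cases w with
    | nil => exact decide_eq_true_iff
    | cons a w => exact (hA.false a).elim
  · have hSb := lin_of_mem_DCS hS
    have hDb := lin_of_mem_DCS hD
    have hsome : Lin (fun b : B => some b) := Lin.of_finite _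
    have hRb : Lin (fun p : List B × List B =>
        decide (p.1.map some ++ none :: p.2.map some ∈ S)) := by
      refine (hSb.comp ((Lin.map' (l := fun p : List B × List B => p.1) (f := some) Lin.fst
        hsome).append ((Lin.const none).cons (Lin.map' (l := fun p : List B × List B => p.2)
        (f := some) Lin.snd hsome)))).of_eq fun p => by congr
    refine mem_DCS_of_lin (f := fun w : List A =>
      decide (w ∈ ({w | ∃ k ≤ K * w.length + K, Accepts S D k (w.map ι)} :
        Language A))) ?_ _ fun w => decide_eq_true_iff
    refine lin_var (R := fun u v => u.map some ++ none :: v.map some ∈ S) ι hRb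
      (Db := fun w => decide (w ∈ D)) (hDb.of_eq fun w => by congr) K
      (fun u v => by rw [decide_eq_true_iff]) fun w => ?_
    rw [decide_eq_true_iff]
    constructor
    · rintro ⟨k, hk, h⟩
      obtain ⟨e, h1, h2⟩ := accepts_iff.1 h
      exact ⟨k, hk, e, h1, by rw [decide_eq_true_iff]; exact h2⟩
    · rintro ⟨k, hk, e, h1, h2⟩
      rw [decide_eq_true_iff] at h2
      exact ⟨k, hk, accepts_iff.2 ⟨e, h1, h2⟩⟩

end Pool.Agent.Results.MP_768539_lc.LinearVariation
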